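import Pool.Agent.Lib.MP_0a5adf_nt.TP.Interfaces

/-!
TAO+ modules FAMSPLIT and POWSPLIT.
-/

set_option autoImplicit false

namespace Pool.Agent.Lib.MP_0a5adf_nt.H24

open Finset Pool.Agent.Lib.MP_0a5adf_nt.TP

theorem mem_cat {a : ℕ} {A B : Finset ℕ} {x : ℕ} :
    x ∈ cat a A B ↔ x ∈ A ∨ ∃ y ∈ B, a + y = x := by
  unfold cat
  rw [mem_union, mem_map]
  rfl

theorem mem_cat_le {a : ℕ} {A B : Finset ℕ} (hB : ∀ y ∈ B, 1 ≤ y) {x : ℕ} (hx : x ≤ a) :
    x ∈ cat a A B ↔ x ∈ A := by
  rw [mem_cat]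
  constructor
  · rintro (h | ⟨y, hy, h⟩)
    · exact h
    · have := hB y hy
      omega
  · exact Or.inl

theorem mem_cat_add {a : ℕ} {A B : Finset ℕ} (hA : ∀ y ∈ A, y ≤ a) {x : ℕ} (hx : 1 ≤ x) :
    a + x ∈ cat a A B ↔ x ∈ B := by
  rw [mem_cat]
  constructor
  · rintro (h | ⟨y, hy, h⟩)
    · have := hA _ h
      omega
    · have : y = x := by omega
      exact this ▸ hy
  · intro h
    exact Or.inr ⟨x, h, rfl⟩

theorem card_cat {a : ℕ} {A B : Finset ℕ} (hA : ∀ y ∈ A, y ≤ a) (hB : ∀ y ∈ B, 1 ≤ y) :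
    (cat a A B).card = A.card + B.card := by
  unfold cat
  rw [card_union_of_disjoint, card_map]
  rw [disjoint_left]
  intro x hx hx'
  rw [mem_map] at hx'
  obtain ⟨y, hy, h⟩ := hx'
  have h1 : a + y = x := h
  have := hA x hx
  have := hB y hy
  omega

theorem mem_Fam {n c : ℕ} {S : Finset ℕ} :
    S ∈ Fam n c ↔ (S ⊆ Icc 1 c ∧ S.card = n) ∧ S.sup id = c := by
  unfold Fam
  rw [mem_filter, mem_powersetCard]

theorem sup_cat {a : ℕ} {A B : Finset ℕ} (hA : A.sup id = a) :
    (cat a A B).sup id = a + B.sup id := by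
  unfold cat
  rw [sup_union, hA]
  rcases B.eq_empty_or_nonempty with rfl | hB
  · simp
  · apply le_antisymm
    · refine sup_le (Nat.le_add_right _ _) ?_
      refine Finset.sup_le fun x hx => ?_
      rw [mem_map] at hx
      obtain ⟨y, hy, rfl⟩ := hx
      exact Nat.add_le_add_left (Finset.le_sup (f := id) hy) a
    · obtain ⟨y, hy, he⟩ := Finset.exists_mem_eq_sup B hB id
      rw [he]
      refine le_trans ?_ le_sup_right
      exact Finset.le_sup (f := id) (mem_map.2 ⟨y, hy, rfl⟩)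

theorem filter_cat {a : ℕ} {A B : Finset ℕ} (hA : ∀ y ∈ A, y ≤ a) (hB : ∀ y ∈ B, 1 ≤ y) :
    (cat a A B).filter (fun x => x ≤ a) = A := by
  ext x
  rw [mem_filter]
  constructor
  · rintro ⟨h, hx⟩
    exact (mem_cat_le hB hx).1 h
  · intro h
    exact ⟨(mem_cat_le hB (hA x h)).2 h, hA x h⟩

/-- the split point exists -/
theorem exists_split {k i : ℕ} {S : Finset ℕ} (hS : S ⊆ Icc 1 i) (hk : k ≤ S.card) :
    ∃ a ≤ i, (S.filter (fun x => x ≤ a)).card = k ∧ (S.filter (fun x => x ≤ a)).sup id = a := by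
  classical
  have hex : ∃ a, k ≤ (S.filter (fun x => x ≤ a)).card := by
    refine ⟨i, ?_⟩
    rw [filter_true_of_mem (fun x hx => (mem_Icc.1 (hS hx)).2)]
    exact hk
  set a := Nat.find hex with ha
  have h1 : k ≤ (S.filter (fun x => x ≤ a)).card := Nat.find_spec hex
  have hai : a ≤ i := Nat.find_min' hex (by
    rw [filter_true_of_mem (fun x hx => (mem_Icc.1 (hS hx)).2)]
    exact hk)
  rcases Nat.eq_zero_or_pos a with h0 | hpos
  · refine ⟨a, hai, ?_⟩
    have h2 : S.filter (fun x => x ≤ a) = ∅ := by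
      rw [h0, filter_eq_empty_iff]
      intro x hx
      have := (mem_Icc.1 (hS hx)).1
      omega
    rw [h2] at h1 ⊢
    simp only [card_empty, Nat.le_zero] at h1
    simp [h1, h0]
  · have h2 : ¬ k ≤ (S.filter (fun x => x ≤ a - 1)).card := Nat.find_min hex (by omega)
    have h3 : S.filter (fun x => x ≤ a) ⊆ insert a (S.filter (fun x => x ≤ a - 1)) := by
      intro x hx
      rw [mem_filter] at hx
      rw [mem_insert, mem_filter]
      rcases eq_or_ne x a with h | h
      · exact Or.inl h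
      · exact Or.inr ⟨hx.1, by omega⟩
    have h4 := (card_le_card h3).trans (card_insert_le _ _)
    have haS : a ∈ S := by
      by_contra hcon
      have h5 : S.filter (fun x => x ≤ a) ⊆ S.filter (fun x => x ≤ a - 1) := by
        intro x hx
        rw [mem_filter] at hx ⊢
        refine ⟨hx.1, ?_⟩
        have : x ≠ a := fun h => hcon (h ▸ hx.1)
        omega
      have := card_le_card h5
      omega
    refine ⟨a, hai, by omega, ?_⟩
    apply le_antisymm
    · refine Finset.sup_le fun x hx => ?_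
      exact (mem_filter.1 hx).2
    · exact Finset.le_sup (f := id) (mem_filter.2 ⟨haS, le_rfl⟩)

/-- POWSPLIT -/
theorem powsplit : PowSplitStatement := by
  classical
  intro M _ k s i g hks
  have e : ∑ a ∈ range (i + 1), ∑ A ∈ Fam k a, ∑ B ∈ powersetCard (s - k) (Icc 1 (i - a)),
        g (cat a A B) = ∑ x ∈ (range (i + 1)).sigma (fun a => Fam k a ×ˢ
          powersetCard (s - k) (Icc 1 (i - a))), g (cat x.1 x.2.1 x.2.2) := by
    rw [sum_sigma]
    refine sum_congr rfl fun a _ => ?_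
    rw [sum_product]
  rw [e]
  symm
  have key : ∀ x ∈ (range (i + 1)).sigma (fun a => Fam k a ×ˢ
      powersetCard (s - k) (Icc 1 (i - a))), x.1 ≤ i ∧ (∀ y ∈ x.2.1, y ≤ x.1) ∧
      (∀ y ∈ x.2.1, 1 ≤ y) ∧ x.2.1.card = k ∧ x.2.1.sup id = x.1 ∧ (∀ y ∈ x.2.2, 1 ≤ y) ∧
      (∀ y ∈ x.2.2, y ≤ i - x.1) ∧ x.2.2.card = s - k := by
    rintro ⟨a, A, B⟩ hx
    rw [mem_sigma, mem_product, mem_Fam, mem_powersetCard, mem_range] at hx
    obtain ⟨h1, ⟨⟨h2, h3⟩, h4⟩, h5, h6⟩ := hx
    exact ⟨by simpa using Nat.lt_succ_iff.1 h1, fun y hy => (mem_Icc.1 (h2 hy)).2,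
      fun y hy => (mem_Icc.1 (h2 hy)).1, h3, h4, fun y hy => (mem_Icc.1 (h5 hy)).1,
      fun y hy => (mem_Icc.1 (h5 hy)).2, h6⟩
  refine sum_bij (fun x _ => cat x.1 x.2.1 x.2.2) ?_ ?_ ?_ ?_
  · intro x hx
    obtain ⟨h1, h2, h2', h3, h4, h5, h5', h6⟩ := key x hx
    rw [mem_powersetCard, card_cat h2 h5, h3, h6]
    refine ⟨fun y hy => ?_, by omega⟩
    rw [mem_cat] at hy
    rw [mem_Icc]
    rcases hy with hy | ⟨z, hz, rfl⟩
    · exact ⟨h2' y hy, (h2 y hy).trans h1⟩
    · have := h5 z hz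
      have := h5' z hz
      omega
  · rintro ⟨a, A, B⟩ hx ⟨a', A', B'⟩ hx' he
    obtain ⟨h1, h2, h2', h3, h4, h5, h5', h6⟩ := key _ hx
    obtain ⟨g1, g2, g2', g3, g4, g5, g5', g6⟩ := key _ hx'
    simp only at h1 h2 h2' h3 h4 h5 h5' h6 g1 g2 g2' g3 g4 g5 g5' g6 he
    have eA := filter_cat h2 h5
    have eA' := filter_cat g2 g5
    have haa : a = a' := by
      rcases le_total a a' with h | h
      · have hsub : A ⊆ A' := by
          rw [← eA, ← eA', he]
          intro x hx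
          rw [mem_filter] at hx ⊢
          exact ⟨hx.1, hx.2.trans h⟩
        have : A = A' := eq_of_subset_of_card_le hsub (by omega)
        rw [← h4, ← g4, this]
      · have hsub : A' ⊆ A := by
          rw [← eA, ← eA', he]
          intro x hx
          rw [mem_filter] at hx ⊢
          exact ⟨hx.1, hx.2.trans h⟩
        have : A' = A := eq_of_subset_of_card_le hsub (by omega)
        rw [← h4, ← g4, this]
    subst haa
    have hA : A = A' := by rw [← eA, ← eA', he]
    subst hA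
    have hB : B = B' := by
      ext x
      rcases Nat.eq_zero_or_pos x with h0 | hpos
      · subst h0
        exact ⟨fun h => absurd (h5 0 h) (by omega), fun h => absurd (g5 0 h) (by omega)⟩
      · rw [← mem_cat_add h2 hpos, he, mem_cat_add h2 hpos]
    subst hB
    rfl
  · intro S hS
    rw [mem_powersetCard] at hS
    obtain ⟨a, ha, hc, hsup⟩ := exists_split hS.1 (k := k) (by omega)
    set A := S.filter (fun x => x ≤ a) with hA
    set B := (S.filter (fun x => a < x)).image (fun x => x - a) with hB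
    have hA1 : ∀ y ∈ A, y ≤ a := fun y hy => (mem_filter.1 hy).2
    have hB1 : ∀ y, y ∈ B ↔ 1 ≤ y ∧ a + y ∈ S := by
      intro y
      rw [hB, mem_image]
      constructor
      · rintro ⟨z, hz, rfl⟩
        rw [mem_filter] at hz
        refine ⟨by omega, ?_⟩
        rw [Nat.add_sub_cancel' hz.2.le]
        exact hz.1
      · rintro ⟨h1, h2⟩
        exact ⟨a + y, mem_filter.2 ⟨h2, by omega⟩, by omega⟩
    have hcat : cat a A B = S := by
      ext x
      rcases le_or_gt x a with h | h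
      · rw [mem_cat_le (fun y hy => ((hB1 y).1 hy).1) h, hA, mem_filter]
        exact ⟨fun h => h.1, fun h' => ⟨h', h⟩⟩
      · obtain ⟨y, rfl⟩ := Nat.exists_eq_add_of_le h.le
        rw [mem_cat_add hA1 (by omega), hB1]
        exact ⟨fun h => h.2, fun h' => ⟨by omega, h'⟩⟩
    refine ⟨⟨a, A, B⟩, ?_, hcat⟩
    rw [mem_sigma, mem_product, mem_Fam, mem_powersetCard, mem_range]
    refine ⟨Nat.lt_succ_of_le ha, ⟨⟨fun y hy => ?_, hc⟩, hsup⟩, fun y hy => ?_, ?_⟩
    · have := (mem_Icc.1 (hS.1 (mem_filter.1 hy).1)).1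
      rw [mem_Icc]
      exact ⟨this, hA1 y hy⟩
    · have h1 := (hB1 y).1 hy
      have := (mem_Icc.1 (hS.1 h1.2)).2
      rw [mem_Icc]
      exact ⟨h1.1, by simp only; omega⟩
    · have h1 := card_cat hA1 (fun y hy => ((hB1 y).1 hy).1)
      rw [hcat, hS.2] at h1
      simp only
      omega
  · intro x _
    rfl

/-- FAMSPLIT -/
theorem famsplit : FamSplitStatement := by
  classical
  intro M _ k k' c g
  unfold Fam
  rw [sum_filter, powsplit M k (k + k') c (fun S => if S.sup id = c then g S else 0) (by omega)]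
  refine sum_congr rfl fun a ha => ?_
  rw [mem_range] at ha
  refine sum_congr rfl fun A hA => ?_
  have hA : (A ⊆ Icc 1 a ∧ A.card = k) ∧ A.sup id = a := mem_Fam.1 hA
  rw [sum_filter, Nat.add_sub_cancel_left]
  refine sum_congr rfl fun B _ => ?_
  have e : ((cat a A B).sup id = c) ↔ B.sup id = c - a := by
    rw [sup_cat hA.2]
    omega
  simp only [e]

end Pool.Agent.Lib.MP_0a5adf_nt.H24
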